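import Pool.Agent.H162R2.AG.All2

/-!
# The list edge-colouring conjecture for almost all graphs

Project of helper162 with helpers 477, 267, 372, 143, 20, 251, 97, 84, 804, 997, 540, 52, 439,
598, 89, 501, 889, 231, 92, 431, 640, 837, 551, 25, 79, 497.
-/

set_option autoImplicit false

namespace Pool.Agent.Results.MP_2f9829_co.AlmostAllGraphs

/-- The proportion of the labelled graphs on `n` vertices for which the list edge-colouring
conjecture holds (that is: for every `k`, the edges can be properly coloured with `k` colours if
and only if they can be properly coloured from all lists of at least `k` colours) tends to `1`. -/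
theorem result : Filter.Tendsto (fun n : ℕ =>
    ({G : SimpleGraph (Fin n) | ∀ k : ℕ, G.lineGraph.Colorable k ↔
      ∀ L : G.edgeSet → Finset ℕ, (∀ e, k ≤ (L e).card) →
        ∃ f : G.edgeSet → ℕ, (∀ e, f e ∈ L e) ∧
          ∀ e e', G.lineGraph.Adj e e' → f e ≠ f e'}.ncard : ℝ) /
      (Nat.card (SimpleGraph (Fin n)) : ℝ)) Filter.atTop (nhds 1) :=
  Pool.Agent.H162R2.AG.almost_all_lecc

end Pool.Agent.Results.MP_2f9829_co.AlmostAllGraphs
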