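import Pool.Agent.H604R2.LEC.AT

/-!
# The list edge-colouring conjecture for the complete graphs `K_{p-1}`

For every odd prime `p` the list edge-colouring conjecture holds for every graph on `p - 1`
vertices that has a vertex adjacent to all the other vertices, in particular for the complete graph
`K_{p-1}` (of even order, list chromatic index `p - 2`).
-/

set_option autoImplicit false

namespace Pool.Agent.Results.MP_2f9829_co.CompletePMinusOne

open Pool.Agent.H604R2.LEC

section aux

variable {k : ℕ}

/-- Every edge of `Fin (k + 1)` containing `v` is of the form `edj v j`. -/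
theorem exists_edj (v w : Fin (k + 1)) (h : v ≠ w) : ∃ j : Fin k, v.succAbove j = w := by
  exact Fin.exists_succAbove_eq h.symm

theorem edj_eq (v w : Fin (k + 1)) (j : Fin k) (hw : v.succAbove j = w) (e : Ed (k + 1))
    (he : s(v, w) = s(e.1.1, e.1.2)) : edj v j = e := by
  subst hw
  unfold edj
  have hlt := e.2
  rcases Sym2.eq_iff.1 he with ⟨h1, h2⟩ | ⟨h1, h2⟩
  · have h3 : v < v.succAbove j := by rw [h2, h1]; exact hlt
    rw [dif_pos h3]
    apply Subtype.ext
    exact Prod.ext h1 h2
  · have h3 : ¬ v < v.succAbove j := by rw [h2, h1]; exact not_lt.2 hlt.le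
    rw [dif_neg h3]
    apply Subtype.ext
    exact Prod.ext h2 h1

end aux

/-- Every graph has a proper edge colouring from equal lists iff its line graph is colourable. -/
theorem colorable_of_lists {V : Type} [Fintype V] (G : SimpleGraph V) (k : ℕ)
    (h : ∀ L : G.edgeSet → Finset ℕ, (∀ e, k ≤ (L e).card) →
      ∃ f : G.edgeSet → ℕ, (∀ e, f e ∈ L e) ∧ ∀ e e', G.lineGraph.Adj e e' → f e ≠ f e') :
    G.lineGraph.Colorable k := by
  obtain ⟨f, hf1, hf2⟩ := h (fun _ => Finset.range k) (by simp)
  refine ⟨SimpleGraph.Coloring.mk (fun e => (⟨f e, Finset.mem_range.1 (hf1 e)⟩ : Fin k)) ?_⟩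
  intro e e' hadj heq
  exact hf2 e e' hadj (Fin.mk.inj_iff.1 heq)

/-- For every odd prime `p`, every graph `G` on `p - 1` vertices with a vertex adjacent to all other
vertices, and every `k`: the edges of `G` can be properly coloured with `k` colours if and only if
`G` is edge-colourable from all lists of size at least `k`. -/
theorem result (p : ℕ) (hp : p.Prime) (hp2 : p ≠ 2) (V : Type) [Fintype V] (G : SimpleGraph V)
    (hV : Fintype.card V = p - 1) (v₀ : V) (hv : ∀ w, w ≠ v₀ → G.Adj v₀ w) (k : ℕ) :
    G.lineGraph.Colorable k ↔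
      ∀ L : G.edgeSet → Finset ℕ, (∀ e, k ≤ (L e).card) →
        ∃ f : G.edgeSet → ℕ, (∀ e, f e ∈ L e) ∧
          ∀ e e', G.lineGraph.Adj e e' → f e ≠ f e' := by
  refine ⟨?_, colorable_of_lists G k⟩
  intro hcol L hL
  classical
  have : Fact p.Prime := ⟨hp⟩
  obtain ⟨m, hm⟩ : ∃ m, p = m + 2 := ⟨p - 2, by have := hp.two_le; omega⟩
  have hodd : Odd p := hp.odd_of_ne_two hp2
  have hev : Even (m + 1) := by
    obtain ⟨r, hr⟩ := hodd
    exact ⟨r, by omega⟩
  have hcV : Fintype.card V = m + 1 := by omega
  -- at least `p - 2` colours are needed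
  have hk : m ≤ k := by
    obtain ⟨C⟩ := hcol
    have hcard : Fintype.card {w : V // w ≠ v₀} = m := by
      rw [Fintype.card_subtype_compl, hcV]
      simp
    let g : {w : V // w ≠ v₀} → Fin k := fun w => C ⟨s(v₀, w.1), hv w.1 w.2⟩
    have hg : Function.Injective g := by
      intro w w' hww
      by_contra hne
      have hne2 : w.1 ≠ w'.1 := fun h => hne (Subtype.ext h)
      have hadj : G.lineGraph.Adj ⟨s(v₀, w.1), hv w.1 w.2⟩ ⟨s(v₀, w'.1), hv w'.1 w'.2⟩ := by
        rw [SimpleGraph.lineGraph_adj_iff_exists]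
        refine ⟨?_, v₀, ?_, ?_⟩
        · intro h
          have h2 := congrArg Subtype.val h
          simp only at h2
          rcases Sym2.eq_iff.1 h2 with ⟨_, h3⟩ | ⟨h3, _⟩
          · exact hne2 h3
          · exact w'.2 h3.symm
        · exact Sym2.mem_mk_left _ _
        · exact Sym2.mem_mk_left _ _
      exact C.valid hadj hww
    have := Fintype.card_le_of_injective g hg
    rw [hcard, Fintype.card_fin] at this
    exact this
  -- transfer of the lists
  obtain ⟨φ⟩ : Nonempty (V ≃ Fin (m + 1)) := ⟨Fintype.equivFinOfCardEq hcV⟩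
  let L' : Ed (m + 1) → Finset ℕ := fun e =>
    if h : s(φ.symm e.1.1, φ.symm e.1.2) ∈ G.edgeSet then L ⟨_, h⟩ else Finset.range k
  have hL' : ∀ e, m ≤ (L' e).card := by
    intro e
    simp only [L']
    split_ifs with h
    · exact hk.trans (hL _)
    · rw [Finset.card_range]
      exact hk
  obtain ⟨f, hf1, hf2⟩ := list_colour (p := p) hm hev L' hL'
  -- the edge of `K_{m+1}` belonging to an edge of `G`
  have hedge : ∀ e : G.edgeSet, ∃ e' : Ed (m + 1), s(φ.symm e'.1.1, φ.symm e'.1.2) = e.1 := by
    rintro ⟨e, he⟩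
    induction e using Sym2.ind with
    | _ a b =>
      have hab : a ≠ b := G.ne_of_adj he
      rcases lt_trichotomy (φ a) (φ b) with h | h | h
      · exact ⟨⟨(φ a, φ b), h⟩, by simp⟩
      · exact absurd (φ.injective h) hab
      · refine ⟨⟨(φ b, φ a), h⟩, ?_⟩
        simp [Sym2.eq_swap]
  choose ε hε using hedge
  refine ⟨fun e => f (ε e), ?_, ?_⟩
  · intro e
    have h1 := hf1 (ε e)
    have h2 : L' (ε e) = L e := by
      have h3 : s(φ.symm (ε e).1.1, φ.symm (ε e).1.2) ∈ G.edgeSet := by
        rw [hε e]; exact e.2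
      simp only [L']
      rw [dif_pos h3]
      congr 1
      exact Subtype.ext (hε e)
    rw [h2] at h1
    exact h1
  · intro e e' hadj
    rw [SimpleGraph.lineGraph_adj_iff_exists] at hadj
    obtain ⟨hne, v, hve, hve'⟩ := hadj
    -- `e` is the edge `{v, w}` and `e'` is the edge `{v, w'}`
    obtain ⟨w, hw⟩ := hve
    obtain ⟨w', hw'⟩ := hve'
    have hvw : v ≠ w := by
      intro h
      have h2 := e.2
      rw [hw, h, SimpleGraph.mem_edgeSet] at h2
      exact G.loopless.irrefl _ h2
    have hvw' : v ≠ w' := by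
      intro h
      have h2 := e'.2
      rw [hw', h, SimpleGraph.mem_edgeSet] at h2
      exact G.loopless.irrefl _ h2
    have hww' : w ≠ w' := by
      intro h
      apply hne
      apply Subtype.ext
      rw [hw, hw', h]
    obtain ⟨i, hi⟩ := exists_edj (φ v) (φ w) (fun h => hvw (φ.injective h))
    obtain ⟨j, hj⟩ := exists_edj (φ v) (φ w') (fun h => hvw' (φ.injective h))
    have hij : i ≠ j := by
      intro h
      rw [h, hj] at hi
      exact hww' (φ.injective hi).symm
    have key : ∀ (a : V) (u : G.edgeSet) (_ : u.1 = s(v, a)),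
        s(φ v, φ a) = s((ε u).1.1, (ε u).1.2) := by
      intro a u hu
      have h1 := hε u
      rw [hu] at h1
      have h2 := congrArg (Sym2.map φ) h1
      simp only [Sym2.map_mk, Equiv.apply_symm_apply] at h2
      exact h2.symm
    have h1 := edj_eq (φ v) (φ w) i hi (ε e) (key w e hw)
    have h2 := edj_eq (φ v) (φ w') j hj (ε e') (key w' e' hw')
    have h3 := hf2 (φ v) i j hij
    rw [h1, h2] at h3
    exact h3

end Pool.Agent.Results.MP_2f9829_co.CompletePMinusOne
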