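import Pool.Agent.H162R2.Sparse.Final

/-!
# The list edge-colouring conjecture for graphs with `mad(G) <= c Delta / log Delta`

The list edge-colouring conjecture holds for every finite simple graph `G` of maximum degree `D`
whose maximum average degree `a` (the largest average degree of an induced subgraph) satisfies
`34 * a * (1 + log D) <= D`. Earlier results of this kind need `a <= sqrt (2 * D)`.
-/

set_option autoImplicit false

namespace Pool.Agent.Results.MP_2f9829_co.SparseGraphs

/-- Let `G` be a finite simple graph of maximum degree `D` and let `a` be a real number such that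
every set `X` of vertices spans at most `a * |X| / 2` edges (that is, at most `a * |X|` ordered
pairs of adjacent vertices), i.e. the maximum average degree of `G` is at most `a`. If
`34 * a * (1 + log D) ≤ D`, then for every `k` the edges of `G` can be properly coloured with `k`
colours if and only if `G` is edge-colourable from all lists of size at least `k`. -/
theorem result (V : Type) [Fintype V] (G : SimpleGraph V) (D : ℕ)
    (hD : ∀ v, (G.neighborSet v).ncard ≤ D) (v : V) (hv : (G.neighborSet v).ncard = D)
    (a : ℝ) (hmad : ∀ X : Finset V,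
      ({e : V × V | e.1 ∈ X ∧ e.2 ∈ X ∧ G.Adj e.1 e.2}.ncard : ℝ) ≤ a * X.card)
    (ha : 34 * a * (1 + Real.log D) ≤ D) (k : ℕ) :
    G.lineGraph.Colorable k ↔
      ∀ L : G.edgeSet → Finset ℕ, (∀ e, k ≤ (L e).card) →
        ∃ f : G.edgeSet → ℕ, (∀ e, f e ∈ L e) ∧
          ∀ e e', G.lineGraph.Adj e e' → f e ≠ f e' := by
  classical
  exact Pool.Agent.H162R2.LEC.listEdge_of_embed G D
    (Pool.Agent.H162R2.Sparse.choosable_sparse G D hD a hmad ha) G id Function.injective_id
    (fun _ _ h => h) v hv.ge k

/-- In particular, the edges of such a graph can be coloured from all lists of size `D`. -/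
theorem choosable (V : Type) [Fintype V] (G : SimpleGraph V) (D : ℕ)
    (hD : ∀ v, (G.neighborSet v).ncard ≤ D)
    (a : ℝ) (hmad : ∀ X : Finset V,
      ({e : V × V | e.1 ∈ X ∧ e.2 ∈ X ∧ G.Adj e.1 e.2}.ncard : ℝ) ≤ a * X.card)
    (ha : 34 * a * (1 + Real.log D) ≤ D)
    (L : G.edgeSet → Finset ℕ) (hL : ∀ e, D ≤ (L e).card) :
    ∃ f : G.edgeSet → ℕ, (∀ e, f e ∈ L e) ∧
      ∀ e e', G.lineGraph.Adj e e' → f e ≠ f e' := by
  classical
  exact Pool.Agent.H162R2.Sparse.choosable_sparse G D hD a hmad ha L hL

end Pool.Agent.Results.MP_2f9829_co.SparseGraphs
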