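import Pool.Agent.H604R2.LEC2.Final

/-!
# The list edge-colouring conjecture for `K_{2p}` and for two cliques of prime order

Let `p` be an odd prime and `A` a nonempty set of residues modulo `p`. The graph `twoCliques p A`
consists of two disjoint complete graphs, both with vertex set the residues modulo `p`, and of all
edges joining `x` in the first one with `x + a` in the second one, for `a` in `A`. For `A` the set
of all residues this is the complete graph on `2 * p` vertices. The list edge-colouring conjecture
holds for these graphs, and for all their subgraphs that have the same maximum degree.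
-/

set_option autoImplicit false

namespace Pool.Agent.Results.MP_2f9829_co.TwoCliques

open Pool.Agent.H604R2.LEC2

/-- Two complete graphs on the residues modulo `p`, with the vertex `x` of the first joined to the
vertex `y` of the second if and only if `y - x` lies in `A`. -/
def twoCliques (p : ℕ) (A : Finset (ZMod p)) : SimpleGraph (ZMod p × Bool) :=
  SimpleGraph.fromRel fun v w => v.2 = w.2 ∨ (v.2 = false ∧ w.2 = true ∧ w.1 - v.1 ∈ A)

/-- For every odd prime `p`, every nonempty set `A` of residues modulo `p` and every subgraph `G` of
`twoCliques p A` with a vertex of degree `p - 1 + |A|` (the degree of all vertices of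
`twoCliques p A`), and for every `k`: the edges of `G` can be properly coloured with `k` colours if
and only if `G` is edge-colourable from all lists of size at least `k`. -/
theorem result (p : ℕ) (hp : p.Prime) (hp2 : p ≠ 2) (A : Finset (ZMod p)) (hA : A.Nonempty)
    (V : Type) [Fintype V] (G : SimpleGraph V) (φ : G →g twoCliques p A)
    (hφ : Function.Injective φ) (v : V) (hv : (G.neighborSet v).ncard = p - 1 + A.card) (k : ℕ) :
    G.lineGraph.Colorable k ↔
      ∀ L : G.edgeSet → Finset ℕ, (∀ e, k ≤ (L e).card) →
        ∃ f : G.edgeSet → ℕ, (∀ e, f e ∈ L e) ∧
          ∀ e e', G.lineGraph.Adj e e' → f e ≠ f e' := by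
  refine ⟨?_, colorable_of_lists G k⟩
  intro hcol L hL
  have : Fact p.Prime := ⟨hp⟩
  have hk : p - 1 + A.card ≤ k := by
    rw [← hv]
    exact ncard_le_of_colorable G k hcol v
  exact transfer G (TC A) (p - 1 + A.card) k (fun L hL => two_cliques_list hp2 A hA L hL)
    φ hφ hk L hL

end Pool.Agent.Results.MP_2f9829_co.TwoCliques
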